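import Mathlib

open Filter

namespace Pool.Agent.Results.MP_f40460_co.BinomialTrees

/-- `U` is a `k`-subtree of the tree `T`: a set of `k` vertices of `T` whose induced subgraph is
connected. -/
def IsSubtree {V : Type} (T : SimpleGraph V) (k : ℕ) (U : Finset V) : Prop :=
  U.card = k ∧ (T.induce (U : Set V)).Connected

open Classical in
/-- `Z k T` is the number of `k`-subtrees of `T`. -/
noncomputable def Z {V : Type} [Fintype V] (k : ℕ) (T : SimpleGraph V) : ℕ :=
  (Finset.univ.filter (fun U : Finset V => IsSubtree T k U)).card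

open Classical in
/-- `c S T` is the number of `k`-subtrees `U` of `T` with `T[U]` isomorphic to `S`, where `S` is a
graph on the `k` vertices `Fin k`. -/
noncomputable def c {V : Type} [Fintype V] {k : ℕ} (S : SimpleGraph (Fin k))
    (T : SimpleGraph V) : ℕ :=
  (Finset.univ.filter
    (fun U : Finset V => IsSubtree T k U ∧ Nonempty (T.induce (U : Set V) ≃g S))).card

/-- A sequence of finite trees `T n` (with vertex types `V n`) is `k`-universal: `T n` has at least
`k` vertices for all large `n`, and for every tree `S` on `k` vertices the proportion of `k`-subtrees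
of `T n` isomorphic to `S` has positive lower limit. -/
def IsUniversal {V : ℕ → Type} [∀ n, Fintype (V n)] (T : ∀ n, SimpleGraph (V n)) (k : ℕ) : Prop :=
  (∀ᶠ n in atTop, k ≤ Fintype.card (V n)) ∧
  ∀ S : SimpleGraph (Fin k), S.IsTree →
    0 < liminf (fun n => (c S (T n) : ℝ) / (Z k (T n) : ℝ)) atTop

/-! ### The corona of a graph: attach one new leaf at every vertex -/

/-- Attach one new leaf `inr v` to every vertex `inl v` of `G`. -/
def corona {V : Type} (G : SimpleGraph V) : SimpleGraph (V ⊕ V) where
  Adj x y := match x, y with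
    | Sum.inl a, Sum.inl b => G.Adj a b
    | Sum.inl a, Sum.inr b => a = b
    | Sum.inr a, Sum.inl b => a = b
    | Sum.inr _, Sum.inr _ => False
  symm := ⟨by
    rintro (a | a) (b | b) h
    · exact h.symm
    · exact h.symm
    · exact h.symm
    · exact h⟩
  loopless := ⟨by
    rintro (a | a) h
    · exact G.loopless.irrefl a h
    · exact h⟩

@[simp] lemma corona_ll {V : Type} (G : SimpleGraph V) (a b : V) :
    (corona G).Adj (Sum.inl a) (Sum.inl b) ↔ G.Adj a b := Iff.rfl
@[simp] lemma corona_lr {V : Type} (G : SimpleGraph V) (a b : V) :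
    (corona G).Adj (Sum.inl a) (Sum.inr b) ↔ a = b := Iff.rfl
@[simp] lemma corona_rl {V : Type} (G : SimpleGraph V) (a b : V) :
    (corona G).Adj (Sum.inr a) (Sum.inl b) ↔ a = b := Iff.rfl
@[simp] lemma corona_rr {V : Type} (G : SimpleGraph V) (a b : V) :
    (corona G).Adj (Sum.inr a) (Sum.inr b) ↔ False := Iff.rfl

/-- Reachability transfers along a map sending adjacent vertices to reachable ones. -/
lemma reachable_of_map {V W : Type} {G : SimpleGraph V} {H : SimpleGraph W} (f : V → W)
    (hf : ∀ a b, G.Adj a b → H.Reachable (f a) (f b)) {a b : V} (h : G.Reachable a b) :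
    H.Reachable (f a) (f b) := by
  rw [SimpleGraph.reachable_iff_reflTransGen] at h
  induction h with
  | refl => exact SimpleGraph.Reachable.refl _
  | tail _ hbc ih => exact ih.trans (hf _ _ hbc)

lemma corona_connected {V : Type} {G : SimpleGraph V} (hG : G.Connected) :
    (corona G).Connected := by
  obtain ⟨r⟩ := hG.nonempty
  rw [SimpleGraph.connected_iff_exists_forall_reachable]
  refine ⟨Sum.inl r, ?_⟩
  have key : ∀ a, (corona G).Reachable (Sum.inl r) (Sum.inl a) := fun a =>
    reachable_of_map (G := G) (H := corona G) Sum.inl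
      (fun a b hab => SimpleGraph.Adj.reachable (by simpa using hab)) (hG.preconnected r a)
  rintro (a | a)
  · exact key a
  · exact (key a).trans (SimpleGraph.Adj.reachable (by simp))

lemma corona_isAcyclic {V : Type} {G : SimpleGraph V} (hG : G.IsAcyclic) :
    (corona G).IsAcyclic := by
  rw [SimpleGraph.isAcyclic_iff_forall_adj_isBridge] at hG ⊢
  -- the edge to the leaf `inr a` is a bridge
  have key : ∀ a : V, ¬ ((corona G).deleteEdges {s(Sum.inl a, Sum.inr a)}).Reachable
      (Sum.inl a) (Sum.inr a) := by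
    intro a h
    have h' := h.symm
    rw [SimpleGraph.reachable_iff_reflTransGen] at h'
    rcases Relation.ReflTransGen.cases_head h' with h1 | ⟨y, hy, -⟩
    · cases h1
    · rcases y with y | y
      · simp only [SimpleGraph.deleteEdges_adj, corona_rl, Set.mem_singleton_iff] at hy
        obtain ⟨rfl, h2⟩ := hy
        exact h2 Sym2.eq_swap
      · simp at hy
  rintro (a | a) (b | b) hab
  · have hab' : G.Adj a b := hab
    have hb := hG hab'
    rw [SimpleGraph.isBridge_iff] at hb ⊢
    intro h
    apply hb
    refine reachable_of_map (G := (corona G).deleteEdges {s(Sum.inl a, Sum.inl b)})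
      (Sum.elim id id) ?_ h
    rintro (x | x) (y | y) hxy
    · refine SimpleGraph.Adj.reachable ?_
      simp only [SimpleGraph.deleteEdges_adj, corona_ll, Set.mem_singleton_iff] at hxy ⊢
      refine ⟨hxy.1, fun h => hxy.2 ?_⟩
      simp only [Sum.elim_inl, id_eq, Sym2.eq_iff] at h
      rcases h with ⟨rfl, rfl⟩ | ⟨rfl, rfl⟩
      · rfl
      · exact Sym2.eq_swap
    · simp only [SimpleGraph.deleteEdges_adj, corona_lr] at hxy
      obtain ⟨rfl, -⟩ := hxy
      exact SimpleGraph.Reachable.refl _
    · simp only [SimpleGraph.deleteEdges_adj, corona_rl] at hxy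
      obtain ⟨rfl, -⟩ := hxy
      exact SimpleGraph.Reachable.refl _
    · simp at hxy
  · obtain rfl : a = b := hab
    exact key a
  · obtain rfl : a = b := hab
    have := key a
    rw [SimpleGraph.isBridge_iff]
    intro h
    apply this
    rw [Sym2.eq_swap]
    exact h.symm
  · exact hab.elim

lemma corona_isTree {V : Type} {G : SimpleGraph V} (hG : G.IsTree) : (corona G).IsTree :=
  ⟨corona_connected hG.connected, corona_isAcyclic hG.isAcyclic⟩

/-! ### Upper bound on the number of subtrees -/

open Classical in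
/-- The connected vertex sets with at most `k` vertices. -/
noncomputable def Y {V : Type} [Fintype V] (k : ℕ) (G : SimpleGraph V) : Finset (Finset V) :=
  Finset.univ.filter (fun U : Finset V => U.card ≤ k ∧ (G.induce (U : Set V)).Connected)

lemma mem_Y {V : Type} [Fintype V] {k : ℕ} {G : SimpleGraph V} {U : Finset V} :
    U ∈ Y k G ↔ U.card ≤ k ∧ (G.induce (U : Set V)).Connected := by
  simp [Y]

/-- A connected set in a corona whose left part is empty is a single new leaf. -/
lemma corona_toLeft_empty {V : Type} {G : SimpleGraph V} {U : Finset (V ⊕ V)}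
    (hU : ((corona G).induce (U : Set (V ⊕ V))).Connected) (hL : U.toLeft = ∅) :
    ∃ v : V, U = {Sum.inr v} := by
  obtain ⟨⟨x, hx⟩⟩ := hU.nonempty
  have hL' : ∀ a : V, Sum.inl a ∉ U := fun a ha => by
    have : a ∈ U.toLeft := by simpa using ha
    simp [hL] at this
  rcases x with a | a
  · exact absurd hx (hL' a)
  refine ⟨a, ?_⟩
  ext y
  simp only [Finset.mem_singleton]
  constructor
  · intro hy
    have h := hU.preconnected ⟨Sum.inr a, hx⟩ ⟨y, hy⟩
    rw [SimpleGraph.reachable_iff_reflTransGen] at h
    rcases Relation.ReflTransGen.cases_head h with h1 | ⟨⟨z, hz⟩, hz', -⟩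
    · exact (congrArg Subtype.val h1).symm
    · rcases z with z | z
      · exact absurd hz (hL' z)
      · simp at hz'
  · rintro rfl
    exact hx

/-- In a connected set with a nonempty left part, every new leaf comes with its base vertex. -/
lemma corona_toRight_subset {V : Type} {G : SimpleGraph V} {U : Finset (V ⊕ V)}
    (hU : ((corona G).induce (U : Set (V ⊕ V))).Connected) (hL : U.toLeft.Nonempty) :
    U.toRight ⊆ U.toLeft := by
  obtain ⟨b, hb⟩ := hL
  have hb' : Sum.inl b ∈ (U : Set (V ⊕ V)) := by simpa using hb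
  intro a ha
  have ha' : Sum.inr a ∈ (U : Set (V ⊕ V)) := by simpa using ha
  have h := hU.preconnected ⟨Sum.inr a, ha'⟩ ⟨Sum.inl b, hb'⟩
  rw [SimpleGraph.reachable_iff_reflTransGen] at h
  rcases Relation.ReflTransGen.cases_head h with h1 | ⟨⟨z, hz⟩, hz', -⟩
  · have := congrArg Subtype.val h1
    cases this
  · rcases z with z | z
    · simp only [SimpleGraph.comap_adj, Function.Embedding.subtype_apply, corona_rl] at hz'
      subst hz'
      simpa using hz
    · simp at hz'

lemma corona_toLeft_connected {V : Type} {G : SimpleGraph V} {U : Finset (V ⊕ V)}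
    (hU : ((corona G).induce (U : Set (V ⊕ V))).Connected) (hL : U.toLeft.Nonempty) :
    (G.induce (U.toLeft : Set V)).Connected := by
  have hsub := corona_toRight_subset hU hL
  have hmem : ∀ x ∈ U, Sum.elim id id x ∈ (U.toLeft : Set V) := by
    rintro (x | x) hx
    · simpa using hx
    · exact hsub (by simpa using hx)
  obtain ⟨b, hb⟩ := hL
  rw [SimpleGraph.connected_iff_exists_forall_reachable]
  refine ⟨⟨b, hb⟩, ?_⟩
  rintro ⟨a, ha⟩
  have ha' : Sum.inl a ∈ (U : Set (V ⊕ V)) := by simpa using ha
  have hb' : Sum.inl b ∈ (U : Set (V ⊕ V)) := by simpa using hb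
  have h := hU.preconnected ⟨Sum.inl b, hb'⟩ ⟨Sum.inl a, ha'⟩
  refine reachable_of_map (H := G.induce (U.toLeft : Set V))
    (fun x : (U : Set (V ⊕ V)) => (⟨Sum.elim id id x.1, hmem x.1 x.2⟩ : (U.toLeft : Set V))) ?_ h
  rintro ⟨x | x, hx⟩ ⟨y | y, hy⟩ hxy
  · exact SimpleGraph.Adj.reachable hxy
  · have : x = y := hxy
    subst this
    exact SimpleGraph.Reachable.refl _
  · have : x = y := hxy
    subst this
    exact SimpleGraph.Reachable.refl _
  · simp at hxy

lemma card_Y_corona {V : Type} [Fintype V] (G : SimpleGraph V) (k : ℕ) :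
    (Y (k + 1) (corona G)).card ≤
      (Y (k + 1) G).card + (2 ^ k * (Y k G).card + Fintype.card V) := by
  classical
  let S1 : Finset (Finset (V ⊕ V)) := (Y (k + 1) G).image (fun A => A.disjSum ∅)
  let S2 : Finset (Finset (V ⊕ V)) :=
    (Y k G).biUnion (fun A => A.powerset.image (fun B => A.disjSum B))
  let S3 : Finset (Finset (V ⊕ V)) := Finset.univ.image (fun v : V => {Sum.inr v})
  have hsub : Y (k + 1) (corona G) ⊆ S1 ∪ (S2 ∪ S3) := by
    intro U hU
    rw [mem_Y] at hU
    obtain ⟨hcard, hconn⟩ := hU
    rcases Finset.eq_empty_or_nonempty U.toLeft with hL | hL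
    · obtain ⟨v, rfl⟩ := corona_toLeft_empty hconn hL
      simp [S3]
    · have h1 := corona_toRight_subset hconn hL
      have h2 := corona_toLeft_connected hconn hL
      have h3 : U.toLeft.card + U.toRight.card = U.card := Finset.card_toLeft_add_card_toRight
      rcases Finset.eq_empty_or_nonempty U.toRight with hR | hR
      · apply Finset.mem_union_left
        refine Finset.mem_image.mpr ⟨U.toLeft, mem_Y.mpr ⟨by omega, h2⟩, ?_⟩
        rw [← hR]
        exact Finset.toLeft_disjSum_toRight
      · apply Finset.mem_union_right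
        apply Finset.mem_union_left
        have h4 : 0 < U.toRight.card := Finset.card_pos.mpr hR
        refine Finset.mem_biUnion.mpr ⟨U.toLeft, mem_Y.mpr ⟨by omega, h2⟩, ?_⟩
        refine Finset.mem_image.mpr ⟨U.toRight, Finset.mem_powerset.mpr h1, ?_⟩
        exact Finset.toLeft_disjSum_toRight
  have c1 : S1.card ≤ (Y (k + 1) G).card := Finset.card_image_le
  have c2 : S2.card ≤ 2 ^ k * (Y k G).card := by
    calc S2.card ≤ ∑ A ∈ Y k G, (A.powerset.image (fun B => A.disjSum B)).card :=
          Finset.card_biUnion_le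
      _ ≤ ∑ A ∈ Y k G, 2 ^ k := by
          refine Finset.sum_le_sum fun A hA => ?_
          refine Finset.card_image_le.trans ?_
          rw [Finset.card_powerset]
          exact Nat.pow_le_pow_right (by norm_num) (mem_Y.mp hA).1
      _ = 2 ^ k * (Y k G).card := by rw [Finset.sum_const, smul_eq_mul, mul_comm]
  have c3 : S3.card ≤ Fintype.card V := Finset.card_image_le
  calc (Y (k + 1) (corona G)).card ≤ (S1 ∪ (S2 ∪ S3)).card := Finset.card_le_card hsub
    _ ≤ S1.card + (S2 ∪ S3).card := Finset.card_union_le _ _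
    _ ≤ S1.card + (S2.card + S3.card) := by
        gcongr
        exact Finset.card_union_le _ _
    _ ≤ _ := by gcongr

/-! ### The binomial trees -/

/-- Vertex types of the binomial trees. -/
def BV : ℕ → Type
  | 0 => Unit
  | m + 1 => BV m ⊕ BV m

/-- The vertex types are finite. -/
instance instFintypeBV : ∀ m, Fintype (BV m)
  | 0 => inferInstanceAs (Fintype Unit)
  | m + 1 =>
    haveI := instFintypeBV m
    inferInstanceAs (Fintype (BV m ⊕ BV m))

/-- The binomial tree on `2 ^ m` vertices: `BT (m + 1)` is the corona of `BT m`. -/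
def BT : ∀ m, SimpleGraph (BV m)
  | 0 => ⊥
  | m + 1 => corona (BT m)

lemma card_BV : ∀ m, Fintype.card (BV m) = 2 ^ m
  | 0 => rfl
  | m + 1 => by
    have h : Fintype.card (BV (m + 1)) = Fintype.card (BV m ⊕ BV m) := rfl
    rw [h, Fintype.card_sum, card_BV m]
    ring

lemma BT_isTree : ∀ m, (BT m).IsTree
  | 0 => by
    have : Nonempty (BV 0) := ⟨()⟩
    have : Subsingleton (BV 0) := inferInstanceAs (Subsingleton Unit)
    exact SimpleGraph.IsTree.of_subsingleton
  | m + 1 => corona_isTree (BT_isTree m)

lemma card_Y_BT (k : ℕ) : ∃ C : ℕ, ∀ m, (Y k (BT m)).card ≤ C * 2 ^ m := by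
  induction k with
  | zero =>
    refine ⟨1, fun m => ?_⟩
    have : Y 0 (BT m) ⊆ {∅} := by
      intro U hU
      have := (mem_Y.mp hU).1
      simpa using this
    calc (Y 0 (BT m)).card ≤ ({∅} : Finset (Finset (BV m))).card := Finset.card_le_card this
      _ = 1 := by simp
      _ ≤ 1 * 2 ^ m := by simpa using Nat.one_le_two_pow
  | succ k ih =>
    obtain ⟨C, hC⟩ := ih
    refine ⟨2 + (2 ^ k * C + 1), fun m => ?_⟩
    induction m with
    | zero =>
      have h1 : (Y (k + 1) (BT 0)).card ≤ Fintype.card (Finset (BV 0)) := Finset.card_le_univ _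
      rw [Fintype.card_finset, card_BV] at h1
      simp only [pow_zero, pow_one, mul_one] at h1 ⊢
      omega
    | succ m ihm =>
      have h1 : (Y (k + 1) (BT (m + 1))).card ≤
          (Y (k + 1) (BT m)).card + (2 ^ k * (Y k (BT m)).card + Fintype.card (BV m)) :=
        card_Y_corona (BT m) k
      have h2 : 2 ^ k * (Y k (BT m)).card ≤ 2 ^ k * (C * 2 ^ m) := Nat.mul_le_mul_left _ (hC m)
      rw [card_BV] at h1
      calc (Y (k + 1) (BT (m + 1))).card
          ≤ (2 + (2 ^ k * C + 1)) * 2 ^ m + (2 ^ k * (C * 2 ^ m) + 2 ^ m) := by omega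
        _ ≤ (2 + (2 ^ k * C + 1)) * 2 ^ m + (2 * 2 ^ m + (2 ^ k * (C * 2 ^ m) + 2 ^ m)) := by
            omega
        _ = (2 + (2 ^ k * C + 1)) * 2 ^ (m + 1) := by ring

/-! ### Lower bound on the number of copies of a fixed tree -/

open Classical in
/-- The vertex sets of `G` that are ranges of induced embeddings of `S`. -/
noncomputable def E {V W : Type} [Fintype V] (S : SimpleGraph W) (G : SimpleGraph V) :
    Finset (Finset V) :=
  Finset.univ.filter (fun U : Finset V => ∃ f : S ↪g G, Set.range f = (U : Set V))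

lemma mem_E {V W : Type} [Fintype V] {S : SimpleGraph W} {G : SimpleGraph V} {U : Finset V} :
    U ∈ E S G ↔ ∃ f : S ↪g G, Set.range f = (U : Set V) := by
  simp [E]

lemma card_E_corona {V W : Type} [Fintype V] (S : SimpleGraph W) (G : SimpleGraph V)
    (l p : W) (hp : S.Adj l p) (hu : ∀ w, S.Adj l w → w = p) :
    (E (S.induce {l}ᶜ) G).card ≤ (E S (corona G)).card := by
  classical
  have hpl : p ∈ ({l}ᶜ : Set W) := by
    simp only [Set.mem_compl_iff, Set.mem_singleton_iff]
    exact hp.ne.symm
  have hsub : E (S.induce {l}ᶜ) G ⊆ (E S (corona G)).image Finset.toLeft := by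
    intro U hU
    obtain ⟨f, hf⟩ := mem_E.mp hU
    -- the extended embedding
    let g : W → V ⊕ V := fun w =>
      if h : w = l then Sum.inr (f ⟨p, hpl⟩) else Sum.inl (f ⟨w, h⟩)
    have gl : g l = Sum.inr (f ⟨p, hpl⟩) := by simp [g]
    have gn : ∀ (w : W) (h : w ≠ l), g w = Sum.inl (f ⟨w, h⟩) := fun w h => by simp [g, h]
    have ginj : Function.Injective g := by
      intro a b hab
      by_cases ha : a = l
      · by_cases hb : b = l
        · rw [ha, hb]
        · rw [ha, gl, gn b hb] at hab
          cases hab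
      · by_cases hb : b = l
        · rw [hb, gl, gn a ha] at hab
          cases hab
        · rw [gn a ha, gn b hb] at hab
          have := f.injective (Sum.inl_injective hab)
          exact congrArg Subtype.val this
    have gadj : ∀ a b : W, (corona G).Adj (g a) (g b) ↔ S.Adj a b := by
      intro a b
      by_cases ha : a = l
      · by_cases hb : b = l
        · rw [ha, hb, gl]; simp
        · rw [ha, gl, gn b hb, corona_rl]
          constructor
          · intro h
            have := congrArg Subtype.val (f.injective h)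
            simp only at this
            rw [← this]; exact hp
          · intro h
            congr 1
            apply Subtype.ext
            exact (hu b h).symm
      · by_cases hb : b = l
        · rw [hb, gl, gn a ha, corona_lr]
          constructor
          · intro h
            have := congrArg Subtype.val (f.injective h)
            simp only at this
            rw [this]; exact hp.symm
          · intro h
            congr 1
            apply Subtype.ext
            exact hu a h.symm
        · rw [gn a ha, gn b hb, corona_ll, f.map_adj_iff]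
          simp
    let F : S ↪g corona G := ⟨⟨g, ginj⟩, fun {a b} => gadj a b⟩
    refine Finset.mem_image.mpr ⟨U.disjSum {f ⟨p, hpl⟩}, mem_E.mpr ⟨F, ?_⟩, by simp⟩
    ext x
    simp only [Set.mem_range, Finset.mem_coe]
    constructor
    · rintro ⟨w, rfl⟩
      change g w ∈ _
      by_cases hw : w = l
      · rw [hw, gl]; simp
      · rw [gn w hw, Finset.inl_mem_disjSum, ← Finset.mem_coe, ← hf]
        exact ⟨_, rfl⟩
    · intro hx
      rcases x with x | x
      · rw [Finset.inl_mem_disjSum, ← Finset.mem_coe, ← hf] at hx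
        obtain ⟨⟨w, hw⟩, rfl⟩ := hx
        exact ⟨w, gn w hw⟩
      · rw [Finset.inr_mem_disjSum, Finset.mem_singleton] at hx
        subst hx
        exact ⟨l, gl⟩
  exact (Finset.card_le_card hsub).trans Finset.card_image_le

lemma card_E_BT : ∀ (k : ℕ) (W : Type) [Fintype W] (S : SimpleGraph W), Fintype.card W = k + 1 →
    S.IsTree → ∀ m, k ≤ m → 2 ^ (m - k) ≤ (E S (BT m)).card := by
  intro k
  induction k with
  | zero =>
    intro W _ S hW hS m _
    classical
    have hsubs : Subsingleton W := by
      rw [← Fintype.card_le_one_iff_subsingleton]; omega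
    have : (Finset.univ : Finset (BV m)).image (fun v => ({v} : Finset (BV m))) ⊆ E S (BT m) := by
      intro U hU
      obtain ⟨v, -, rfl⟩ := Finset.mem_image.mp hU
      obtain ⟨w⟩ := hS.connected.nonempty
      refine mem_E.mpr ⟨⟨⟨fun _ => v, fun a b _ => Subsingleton.elim a b⟩, ?_⟩, ?_⟩
      · intro a b
        have : a = b := Subsingleton.elim a b
        subst this
        simp
      · ext x
        constructor
        · rintro ⟨_, rfl⟩
          exact Finset.mem_coe.mpr (Finset.mem_singleton_self v)
        · intro hx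
          have hx' : x = v := Finset.mem_singleton.mp (Finset.mem_coe.mp hx)
          exact ⟨w, hx'.symm⟩
    calc 2 ^ (m - 0) = (Finset.univ : Finset (BV m)).card := by
          rw [Finset.card_univ, card_BV, Nat.sub_zero]
      _ = ((Finset.univ : Finset (BV m)).image (fun v => ({v} : Finset (BV m)))).card :=
          (Finset.card_image_of_injective _ Finset.singleton_injective).symm
      _ ≤ _ := Finset.card_le_card this
  | succ k ih =>
    intro W _ S hW hS m hm
    classical
    have : Nontrivial W := by
      rw [← Fintype.one_lt_card_iff_nontrivial]; omega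
    obtain ⟨l, hl⟩ := hS.exists_vert_degree_one_of_nontrivial
    obtain ⟨p, hp, hu⟩ := SimpleGraph.degree_eq_one_iff_existsUnique_adj.mp hl
    have hconn := hS.connected.induce_compl_singleton_of_degree_eq_one hl
    have htree : (S.induce {l}ᶜ).IsTree := ⟨hconn, hS.isAcyclic.induce _⟩
    have hcard : Fintype.card (({l}ᶜ : Set W)) = k + 1 := by
      rw [Fintype.card_compl_set, hW]
      simp
    obtain ⟨m', rfl⟩ : ∃ m', m = m' + 1 := ⟨m - 1, by omega⟩
    have h1 := ih ({l}ᶜ : Set W) (S.induce {l}ᶜ) hcard htree m' (by omega)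
    have h2 := card_E_corona S (BT m') l p hp hu
    have h3 : m' + 1 - (k + 1) = m' - k := by omega
    rw [h3]
    exact h1.trans h2

lemma card_E_le_c {V : Type} [Fintype V] {k : ℕ} (S : SimpleGraph (Fin k)) (hS : S.IsTree)
    (G : SimpleGraph V) : (E S G).card ≤ c S G := by
  classical
  refine Finset.card_le_card fun U hU => ?_
  obtain ⟨f, hf⟩ := mem_E.mp hU
  have iso : Nonempty (G.induce (U : Set V) ≃g S) := by
    rw [← hf]
    exact ⟨f.isoInduceRange.symm⟩
  obtain ⟨e⟩ := iso
  rw [Finset.mem_filter]
  refine ⟨Finset.mem_univ _, ⟨?_, e.connected_iff.mpr hS.connected⟩, ⟨e⟩⟩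
  have := Fintype.card_congr e.toEquiv
  simpa using this

lemma c_le_Z {V : Type} [Fintype V] {k : ℕ} (S : SimpleGraph (Fin k)) (G : SimpleGraph V) :
    c S G ≤ Z k G := by
  classical
  refine Finset.card_le_card fun U hU => ?_
  rw [Finset.mem_filter] at hU ⊢
  exact ⟨hU.1, hU.2.1⟩

lemma Z_le_Y {V : Type} [Fintype V] (k : ℕ) (G : SimpleGraph V) : Z k G ≤ (Y k G).card := by
  classical
  refine Finset.card_le_card fun U hU => ?_
  rw [Finset.mem_filter] at hU
  exact mem_Y.mpr ⟨hU.2.1.le, hU.2.2⟩

/-- There is a single sequence of finite trees which is `k`-universal for every `k ≥ 1`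
simultaneously. -/
theorem result : ∃ (V : ℕ → Type) (_ : ∀ n, Fintype (V n)) (T : ∀ n, SimpleGraph (V n)),
    (∀ n, (T n).IsTree) ∧ ∀ k, 1 ≤ k → IsUniversal T k := by
  refine ⟨BV, instFintypeBV, BT, BT_isTree, ?_⟩
  intro k hk
  refine ⟨?_, ?_⟩
  · filter_upwards [eventually_ge_atTop k] with n hn
    rw [card_BV]
    exact hn.trans n.lt_two_pow_self.le
  · intro S hS
    obtain ⟨j, rfl⟩ : ∃ j, k = j + 1 := ⟨k - 1, by omega⟩
    obtain ⟨C, hC⟩ := card_Y_BT (j + 1)
    have hpos : (0 : ℝ) < 1 / (((C : ℝ) + 1) * 2 ^ j) := by positivity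
    refine lt_of_lt_of_le hpos (le_liminf_of_le ?_ ?_)
    · refine isCoboundedUnder_ge_of_le atTop (x := (1 : ℝ)) fun n => ?_
      refine div_le_one_of_le₀ ?_ (Nat.cast_nonneg _)
      exact_mod_cast c_le_Z S (BT n)
    · filter_upwards [eventually_ge_atTop j] with n hn
      have h1 : 2 ^ (n - j) ≤ c S (BT n) :=
        (card_E_BT j (Fin (j + 1)) S (by simp) hS n hn).trans (card_E_le_c S hS (BT n))
      have h2 : Z (j + 1) (BT n) ≤ C * 2 ^ n := (Z_le_Y _ _).trans (hC n)
      have h3 : c S (BT n) ≤ Z (j + 1) (BT n) := c_le_Z S (BT n)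
      have h4 : 0 < 2 ^ (n - j) := by positivity
      have hZpos : (0 : ℝ) < (Z (j + 1) (BT n) : ℝ) := by
        exact_mod_cast lt_of_lt_of_le h4 (h1.trans h3)
      rw [div_le_div_iff₀ (by positivity) hZpos]
      have h1' : ((2 : ℝ) ^ (n - j)) ≤ (c S (BT n) : ℝ) := by exact_mod_cast h1
      have h2' : (Z (j + 1) (BT n) : ℝ) ≤ C * 2 ^ n := by exact_mod_cast h2
      have h5 : (2 : ℝ) ^ n = 2 ^ (n - j) * 2 ^ j := by
        rw [← pow_add]; congr 1; omega
      calc (1 : ℝ) * (Z (j + 1) (BT n) : ℝ) ≤ C * 2 ^ n := by simpa using h2'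
        _ ≤ (C + 1) * 2 ^ n := by gcongr; linarith
        _ = 2 ^ (n - j) * (((C : ℝ) + 1) * 2 ^ j) := by rw [h5]; ring
        _ ≤ (c S (BT n) : ℝ) * (((C : ℝ) + 1) * 2 ^ j) := by gcongr

end Pool.Agent.Results.MP_f40460_co.BinomialTrees
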